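import Pool.Agent.X114.PP.PP3

/-!
MP_cbd977_an, Q1 (if `(k,ℓ)` is a complete pseudo-Pick pair and `k` is non-vanishing, must `ℓ/k` be
positive semi-definite?). The answer is no: on three points take `k = 1` and `ℓ = 1` on the
diagonal, `k(1,2) = k(1,3) = 1/3`, `k(2,3) = -1/3`, and `ℓ = 1/5` off the diagonal.

With `E_ij(u,v) = ⟨u,v⟩ - ⟨W_i^* u, W_j^* v⟩` the `k`-Pick form is
`K = E_11 + E_22 + E_33 + (2/3) Re (E_12 + E_13 - E_23)`. Choosing `x_3` with
`(1 - W_1 W_3^*) x_3 = (1/3) (1 - W_1 W_2^*) x_2` one gets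
`E_11(x_1) + (8/9) Re E_12(x_1,x_2) + (8/9) E_22(x_2) ≥ 0`, a two-point inequality that is stronger
than the one in the hypothesis, and the same for the pair `1,3`. The `ℓ`-Pick form is
`(3/5) K(0,x_2,-x_3)` plus `9/20` times these two forms plus `(1/10) E_11(x_1)`.
-/

set_option autoImplicit false

namespace Pool.Agent.Results.MP_cbd977_an.PseudoPick

open Pool.Agent.X114.PP

theorem result : ∃ (X : Type) (k l : X → X → ℂ), IsKernel k ∧ IsKernel l ∧ (∀ x y, k x y ≠ 0) ∧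
    IsCompletePseudoPick k l ∧ ¬ IsKernel (fun x y => l x y / k x y) :=
  ⟨Fin 3, fun x y => (kr x y : ℂ), fun x y => (lr x y : ℂ), k_kernel, l_kernel, k_ne, pseudoPick,
    not_kernel⟩

end Pool.Agent.Results.MP_cbd977_an.PseudoPick
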